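import Mathlib
import Pool.Agent.Hhelper66.RhombicDefs
import Pool.Agent.Hhelper66.Rhombic2

set_option autoImplicit false

open Pool.Agent.Hhelper66.Rhombic
open scoped Pointwise

namespace Pool.Agent.Results.MP_de3f1f_gt.UniquenessParity

/-- For every `d ≥ 2` there is a regular minimiser of the circumradius among the rhombic
dodecahedra of unit volume in `ℝ^d`, and every minimiser is regular if and only if `d` is even. -/
theorem result (d : ℕ) (hd : 2 ≤ d) :
    (∃ Z : Set (EuclideanSpace ℝ (Fin d)), IsCircumradiusMinimiser d Z ∧ IsRegular d Z) ∧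
    ((∀ Z : Set (EuclideanSpace ℝ (Fin d)), IsCircumradiusMinimiser d Z → IsRegular d Z) ↔
      Even d) := by
  have hd1 : 1 ≤ d := by omega
  obtain ⟨a, ha, hscale⟩ := exists_scale hd1
  obtain ⟨p, hp⟩ := exists_simplex (d := d) ha
  have hv0 := volume_pert ha hscale hp le_rfl (by simp)
  have hc0 := circumradius_simplex_le ha hp
  have hmin0 := isMin_of ha hscale hd1 hv0 hc0
  have hreg0 : IsRegular d (zonotope (pert p 0)) := by
    rw [pert_zero]
    exact ⟨0, p, isCentredRegularSimplex ha hp, (zero_vadd _ _).symm⟩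
  refine ⟨⟨_, hmin0, hreg0⟩, ?_, ?_⟩
  · intro hall
    by_contra hodd
    have heven : Even (d + 1) := by
      rw [Nat.even_add_one]; exact hodd
    have hd' : (0 : ℝ) < d := by
      have : 0 < d := by omega
      exact_mod_cast this
    have hτ : (0 : ℝ) < 1 / (4 * d) := by positivity
    have h1 : 1 / (4 * (d : ℝ)) * d < 1 := by
      field_simp; norm_num
    have hd2 : (2 : ℝ) ≤ d := by exact_mod_cast hd
    have h2 : (d : ℝ) * (2 * (1 / (4 * d)) + (1 / (4 * d)) ^ 2) ≤ 1 := by
      have : (d : ℝ) * (2 * (1 / (4 * d)) + (1 / (4 * d)) ^ 2) = 1 / 2 + 1 / (16 * d) := by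
        field_simp; ring
      rw [this]
      have : 1 / (16 * (d : ℝ)) ≤ 1 / 2 := by
        apply one_div_le_one_div_of_le <;> linarith
      linarith
    have hv := volume_pert ha hscale hp hτ.le h1
    have hc := circumradius_pert_le ha hp hτ.le h2 heven
    exact not_regular ha hd hp hτ h1 (hall _ (isMin_of ha hscale hd1 hv hc))
  · rintro heven Z ⟨⟨⟨x, rfl⟩, -⟩, hvol, hmin⟩
    refine regular_of_min ha hscale hd1 heven hvol ?_
    exact (hmin _ hmin0.1 hv0).trans hc0

end Pool.Agent.Results.MP_de3f1f_gt.UniquenessParity
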